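import Pool.Agent.N115.JS.Stm
import Pool.Agent.N441.AN.Picard

/-!
JS/2: varieties are pseudo-Picard hyperbolic if the values of enough functions at the algebroid
points near infinity are algebraic over the functions which are meromorphic at infinity; version with
specializations which map finitely many elements of `L` to the meromorphic functions. Adapted from
`Pool.Agent.N441.AN8.picard_of`.
-/

set_option autoImplicit false
set_option linter.overlappingInstances false
set_option linter.unusedSectionVars false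

open Filter Topology Set Metric IntermediateField

namespace Pool.Agent.N42.JS

open FF Pool.Agent.W602.GT
open Pool.Agent.Y190.AN (MK exD Minf cl cl_eq cl_eq_zero Minf_closed inv_mem_ext eval_mero
  extends_of_minf coord_an)
open Pool.Agent.TH466.QG (Sp alg_spec spread adjoin_norm hz_form val_hz)
open Pool.Agent.W603.BP (PB mem_disc inv_mem_PB Extends PCurve Ext_open)
open Pool.Agent.N441.AN8 (gen0 alg_coords)

/-- **JS/2.** -/
theorem picard_of_l (hR : Pool.Agent.N115.JS.SpreadRange) : Pool.Agent.N115.JS.PicardOfL := by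
  classical
  intro K' L _ _ _ _ _ _ _ r n hr y i0 hi0 halgK' hopen M x hx hgen
  obtain ⟨i1, hi1'⟩ := Function.ne_iff.1 hx
  have hi1 : x i1 ≠ 0 := hi1'
  obtain ⟨Θ, Λ, hΘ, hΛ, hopen⟩ := hopen
  obtain ⟨Θ3, hΘ3, hrange⟩ := hR ℂ L K' M x i1 hi1 hgen Λ hΛ
  obtain ⟨y0, hy0, hgen0⟩ := gen0 (k := ℂ) y i0 hi0
  have hi00 : y0 i0 ≠ 0 := by
    intro h0
    have h1 := hy0 i0
    rw [h0, div_self hi0] at h1
    exact zero_ne_one h1
  obtain ⟨Θ2, hΘ2, halgs⟩ := alg_spec (K' := K') hgen0 hi00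
    (fun m => algebraMap L K' (x m / x i1))
  obtain ⟨H, hH, hspread⟩ := spread (K' := K') (adjoin_norm hgen hi1)
    (Θ := (Θ ∪ Θ3) ∪ ((algebraMap (coords ℂ y) K' '' Θ2) ∪ (Set.range y ∪
      (Set.range (fun i => y i / y i0) ∪ {(y i0)⁻¹}))))
    ((hΘ.union hΘ3).union ((hΘ2.image _).union ((Set.finite_range y).union
      ((Set.finite_range _).union (Set.finite_singleton _)))))
  refine ⟨MvPolynomial.X i1 * Pool.Agent.TH466.QG.hz i1 H, ?_, ?_, ?_⟩
  · obtain ⟨d, hd⟩ := hz_form i1 H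
    exact ⟨1 + d, (MvPolynomial.isHomogeneous_X ℂ i1).mul hd⟩
  · change MvPolynomial.aeval x _ ≠ 0
    rw [map_mul, MvPolynomial.aeval_X]
    refine mul_ne_zero hi1 ?_
    change val x _ ≠ 0
    rw [val_hz H hi1]
    exact mul_ne_zero (pow_ne_zero _ hi1) hH
  intro f hf t0 ht0
  by_contra hft
  -- the curve as a punctured curve
  have hPC : PCurve (∅ : Set (Fin (M + 1))) (fun e : Empty => (e.elim : MvPolynomial (Fin (M + 1)) ℂ)) f :=
    ⟨differentiableOn_pi.2 hf.hol, fun z hz => ⟨hf.ne z hz, fun j hj => absurd hj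
      (Set.notMem_empty j), fun e => e.elim⟩⟩
  have hM : ∀ i, MeromorphicOn (fun z => f z⁻¹ i) (exD 1 one_pos).U := fun i z hz =>
    (coord_an hPC i z hz).meromorphicAt
  obtain ⟨z, hzdef⟩ : ∃ z : Fin (M + 1) → MK (exD 1 one_pos), z = fun i => cl _ (hM i) :=
    ⟨_, rfl⟩
  have hExt : ∀ v ∈ (exD 1 one_pos).U, v⁻¹ ∈ ball (0 : ℂ) 1 \ {0} := by
    intro v hv
    have h1 : (1 : ℝ) < ‖v‖ := hv
    have h0 : v ≠ 0 := by
      rintro rfl
      rw [norm_zero] at h1
      linarith
    exact mem_disc.2 ⟨inv_ne_zero h0, by rw [norm_inv]; exact inv_lt_one_of_one_lt₀ h1⟩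
  have hvz : ∀ G, val z G = 0 ↔ ∀ t ∈ (exD 1 one_pos).U,
      MvPolynomial.eval (fun i => f t⁻¹ i) G = 0 := by
    intro G
    rw [hzdef, Pool.Agent.Y190.AN.val_cl G hM (eval_mero G hM), cl_eq_zero]
    constructor
    · intro h t ht
      have h3 : AnalyticAt ℂ (fun v => MvPolynomial.eval (fun i => f v⁻¹ i) G) t := by
        simp only [MvPolynomial.eval_eq']
        apply Finset.analyticAt_fun_sum
        intro α _
        apply AnalyticAt.fun_mul analyticAt_const
        apply Finset.analyticAt_fun_prod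
        intro j _
        exact (coord_an hPC j t ht).fun_pow _
      exact (h3.frequently_zero_iff_eventually_zero.1 (h t ht).frequently).self_of_nhds
    · intro h t ht
      have h1 : ∀ᶠ w in 𝓝 t, w ∈ (exD 1 one_pos).U := (exD 1 one_pos).op.mem_nhds ht
      filter_upwards [nhdsWithin_le_nhds h1] with w hw
      exact h w hw
  have hzR : val z (MvPolynomial.X i1 * Pool.Agent.TH466.QG.hz i1 H) ≠ 0 := by
    intro h0
    apply hft
    have h1 := (hvz _).1 h0 t0⁻¹ (inv_mem_ext (mem_disc.1 ht0))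
    rw [inv_inv] at h1
    exact h1
  change MvPolynomial.aeval z _ ≠ 0 at hzR
  rw [map_mul, MvPolynomial.aeval_X] at hzR
  have hz1 : z i1 ≠ 0 := left_ne_zero_of_mul hzR
  have hzH : MvPolynomial.aeval (fun i => z i / z i1) H ≠ 0 := by
    have h1 : val z (Pool.Agent.TH466.QG.hz i1 H) ≠ 0 := right_ne_zero_of_mul hzR
    rw [val_hz H hz1] at h1
    exact right_ne_zero_of_mul h1
  have hsp : ∀ G : MvPolynomial (Fin (M + 1)) ℂ,
      MvPolynomial.aeval (fun i => x i / x i1) G = 0 →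
      MvPolynomial.aeval (fun i => z i / z i1) G = 0 := by
    intro G hG
    have h1 : val x (Pool.Agent.TH466.QG.hz i1 G) = 0 := by
      rw [val_hz G hi1, hG, mul_zero]
    have h2 : val z (Pool.Agent.TH466.QG.hz i1 G) = 0 := by
      rw [hvz]
      intro t ht
      exact hf.mem _ (hz_form i1 G) h1 _ (hExt t ht)
    rw [val_hz G hz1] at h2
    exact (mul_eq_zero.1 h2).resolve_left (pow_ne_zero _ hz1)
  obtain ⟨K'', i1', i2', i3', i4', i5', hrk, S, hSx, hSΘ⟩ := hspread (MK (exD 1 one_pos))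
    (fun i => z i / z i1) hsp hzH
  have hSy : ∀ i, ∃ t, S.T (y i) t := fun i => hSΘ _ (Or.inr (Or.inr (Or.inl ⟨i, rfl⟩)))
  choose y' hy' using hSy
  have hinv : ∃ t, S.T (y i0)⁻¹ t := hSΘ _ (Or.inr (Or.inr (Or.inr (Or.inr rfl))))
  have halg0 : ∀ i, IsAlgebraic (Minf 1 one_pos) (y' i / y' i0) :=
    hopen K'' (hrk.trans hr) S (fun ϑ hϑ => hSΘ _ (Or.inl (Or.inl hϑ)))
      (hrange (MK (exD 1 one_pos)) K'' S (fun i => z i / z i1) hSx
        (fun ϑ hϑ => hSΘ _ (Or.inl (Or.inr hϑ)))) y' hy'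
  have hSy0 : ∀ i, S.T (algebraMap (coords ℂ y) K' (y0 i)) (y' i / y' i0) := by
    intro i
    have h1 : algebraMap (coords ℂ y) K' (y0 i) = y i * (y i0)⁻¹ := by
      rw [← div_eq_mul_inv]
      exact hy0 i
    rw [h1, div_eq_mul_inv]
    exact S.mul (hy' i) (S.inv (hy' i0) hinv hi0)
  have hall : ∀ m, z m / z i1 ∈ Minf 1 one_pos := by
    intro m
    have h1 := halgs K'' S (fun ϑ hϑ => hSΘ _ (Or.inr (Or.inl ⟨ϑ, hϑ, rfl⟩)))
      (fun i => y' i / y' i0) hSy0
      (fun m => algebraMap (MK (exD 1 one_pos)) K'' (z m / z i1)) hSx m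
    have h2 : IsAlgebraic (Minf 1 one_pos)
        (algebraMap (MK (exD 1 one_pos)) K'' (z m / z i1)) := alg_coords halg0 h1
    exact Minf_closed ((isAlgebraic_algebraMap_iff
      (algebraMap (MK (exD 1 one_pos)) K'').injective).1 h2)
  apply hf.ess
  refine extends_of_minf hPC hM fun i j hj => ?_
  have e : ∀ m, cl _ (hM m) = z m := fun m => by rw [hzdef]
  rw [e] at hj
  rw [e, e]
  have h1 : z i / z j = (z i / z i1) * (z j / z i1)⁻¹ := by
    field_simp
  rw [h1]
  exact mul_mem (hall i) (inv_mem (hall j))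

end Pool.Agent.N42.JS
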